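import Pool.Agent.Lib.MP_4fbe7c_an.RS.Iface
import Pool.Agent.Lib.MP_4fbe7c_an.WH.H30.Osc

/-!
Project RS (MP_4fbe7c_an), module RCO: coercivity of the functional.
-/

set_option autoImplicit false

open Set Filter Topology MeasureTheory intervalIntegral
open scoped Interval

namespace Pool.Agent.Lib.MP_4fbe7c_an.RS.H97

open Pool.Agent.Lib.MP_4fbe7c_an.SD Pool.Agent.Lib.MP_4fbe7c_an.FC
  Pool.Agent.Lib.MP_4fbe7c_an.WH

/-- pointwise: the entropy density is nonnegative -/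
theorem ent_nonneg {a b : ℝ} (ha : 0 < a) (hb : 0 < b) : 0 ≤ a - b - b * Real.log (a / b) := by
  have h1 := Real.log_le_sub_one_of_pos (div_pos ha hb)
  have h2 : b * Real.log (a / b) ≤ b * (a / b - 1) := mul_le_mul_of_nonneg_left h1 hb.le
  have h3 : b * (a / b - 1) = a - b := by field_simp
  linarith

/-- pointwise: upper bound for the entropy density -/
theorem ent_le {a b m₀ M X W : ℝ} (hm : 0 < m₀) (hb1 : m₀ ≤ b) (hb2 : b ≤ M) (hW : 0 ≤ W)
    (hX : X = a + W - b) (h1 : 1 / 2 ≤ a / b) (h2 : a / b ≤ 3 / 2) :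
    a - b - b * Real.log (a / b) ≤ 2 * M * (1 / m₀ ^ 2 * X ^ 2 + 2 / m₀ * W) := by
  have hb : 0 < b := lt_of_lt_of_le hm hb1
  set r : ℝ := a / b with hr
  have ha : a = b * r := by rw [hr]; field_simp
  have hr0 : 0 < r := by linarith
  have e1 : 1 - r⁻¹ ≤ Real.log r := Real.one_sub_inv_le_log_of_pos hr0
  have e2 : r - 1 - Real.log r ≤ 2 * (r - 1) ^ 2 := by
    have e3 : r - 1 - (1 - r⁻¹) = (r - 1) ^ 2 / r := by field_simp
    have e4 : (r - 1) ^ 2 / r ≤ 2 * (r - 1) ^ 2 := by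
      rw [div_le_iff₀ hr0]
      nlinarith [sq_nonneg (r - 1)]
    linarith
  have e5 : a - b - b * Real.log r = b * (r - 1 - Real.log r) := by rw [ha]; ring
  have e6 : b * (r - 1) = X - W := by rw [hX, ha]; ring
  have e7 : (r - 1) ^ 2 ≤ 1 := by nlinarith
  have e7a : |r - 1| ≤ 1 := by rw [abs_le]; constructor <;> linarith
  -- b ^ 2 (r - 1) ^ 2 ≤ X ^ 2 + 2 b W
  have e8 : b ^ 2 * (r - 1) ^ 2 ≤ X ^ 2 + 2 * (b * W) := by
    have f1 : b ^ 2 * (r - 1) ^ 2 = X * (b * (r - 1)) - W * (b * (r - 1)) := by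
      have : b ^ 2 * (r - 1) ^ 2 = (b * (r - 1)) * (b * (r - 1)) := by ring
      rw [this]
      nth_rewrite 1 [e6]
      ring
    have f2 : X * (b * (r - 1)) ≤ (X ^ 2 + (b * (r - 1)) ^ 2) / 2 := by
      nlinarith [sq_nonneg (X - b * (r - 1))]
    have f3 : -(W * (b * (r - 1))) ≤ b * W := by
      have : 0 ≤ b * W := mul_nonneg hb.le hW
      nlinarith
    have f4 : (b * (r - 1)) ^ 2 = b ^ 2 * (r - 1) ^ 2 := by ring
    rw [f4] at f2
    linarith
  have e9 : (r - 1) ^ 2 ≤ 1 / m₀ ^ 2 * X ^ 2 + 2 / m₀ * W := by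
    have f1 : (r - 1) ^ 2 ≤ X ^ 2 / b ^ 2 + 2 * W / b := by
      have g1 : (r - 1) ^ 2 = b ^ 2 * (r - 1) ^ 2 / b ^ 2 := by field_simp
      rw [g1]
      have g2 : X ^ 2 / b ^ 2 + 2 * W / b = (X ^ 2 + 2 * (b * W)) / b ^ 2 := by field_simp
      rw [g2]
      exact div_le_div_of_nonneg_right e8 (by positivity)
    have f2 : X ^ 2 / b ^ 2 ≤ 1 / m₀ ^ 2 * X ^ 2 := by
      rw [one_div_mul_eq_div]
      exact div_le_div_of_nonneg_left (sq_nonneg X) (by positivity)
        (pow_le_pow_left₀ hm.le hb1 2)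
    have f3 : 2 * W / b ≤ 2 / m₀ * W := by
      rw [div_mul_eq_mul_div]
      exact div_le_div_of_nonneg_left (by positivity) hm hb1
    linarith
  rw [e5]
  have hM : 0 < M := lt_of_lt_of_le hb hb2
  calc b * (r - 1 - Real.log r) ≤ b * (2 * (r - 1) ^ 2) := mul_le_mul_of_nonneg_left e2 hb.le
    _ ≤ M * (2 * (r - 1) ^ 2) := mul_le_mul_of_nonneg_right hb2 (by positivity)
    _ ≤ M * (2 * (1 / m₀ ^ 2 * X ^ 2 + 2 / m₀ * W)) := by
        apply mul_le_mul_of_nonneg_left _ hM.le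
        linarith
    _ = 2 * M * (1 / m₀ ^ 2 * X ^ 2 + 2 / m₀ * W) := by ring

theorem rco : RcoStatement := by
  intro L m₀ M hL hm hM
  set η : ℝ := min (L * (m₀ / 20) ^ 2 / 2) (min (L * m₀ / 40) (1 / (100 * L))) with hη
  have hη0 : 0 < η := lt_min (by positivity) (lt_min (by positivity) (by positivity))
  have hη1 : η ≤ L * (m₀ / 20) ^ 2 / 2 := min_le_left _ _
  have hη2 : η ≤ L * m₀ / 40 := (min_le_right _ _).trans (min_le_left _ _)
  have hη3 : η ≤ 1 / (100 * L) := (min_le_right _ _).trans (min_le_right _ _)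
  refine ⟨1 / η + 1 + 2 * M * (1 / m₀ ^ 2 + 2 / m₀), by positivity, ?_⟩
  intro θ θ' f f' W hθ hθc hf hfc hWc hθb hfp hW0 V hV
  have hθp : ∀ x ∈ Icc 0 L, 0 < θ x := fun x hx => lt_of_lt_of_le hm (hθb x hx).1
  have hθcont : ContinuousOn θ (Icc 0 L) := hθ.continuousOn
  have hfcont : ContinuousOn f (Icc 0 L) := hf.continuousOn
  have hdiv : ContinuousOn (fun x => f x / θ x) (Icc 0 L) :=
    hfcont.div hθcont fun x hx => (hθp x hx).ne'
  have hlog : ContinuousOn (fun x => Real.log (f x / θ x)) (Icc 0 L) :=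
    hdiv.log fun x hx => (div_pos (hfp x hx) (hθp x hx)).ne'
  have hEc : ContinuousOn (fun x => f x - θ x - θ x * Real.log (f x / θ x)) (Icc 0 L) :=
    (hfcont.sub hθcont).sub (hθcont.mul hlog)
  have hXc : ContinuousOn (fun x => (f x + W x - θ x) ^ 2) (Icc 0 L) :=
    ((hfcont.add hWc).sub hθcont).pow 2
  have hqc : ContinuousOn (fun x => f' x / f x - θ' x / θ x) (Icc 0 L) :=
    (hfc.div hfcont fun x hx => (hfp x hx).ne').sub (hθc.div hθcont fun x hx => (hθp x hx).ne')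
  have iE := hEc.intervalIntegrable_of_Icc (μ := volume) hL.le
  have iW := hWc.intervalIntegrable_of_Icc (μ := volume) hL.le
  have iX := hXc.intervalIntegrable_of_Icc (μ := volume) hL.le
  have hVe : V = (∫ x in (0)..L, (f x - θ x - θ x * Real.log (f x / θ x))) +
      ∫ x in (0)..L, W x := by
    rw [hV, ← integral_add iE iW]
  set E0 : ℝ := ∫ x in (0)..L, (f x - θ x - θ x * Real.log (f x / θ x)) with hE0
  set Wi : ℝ := ∫ x in (0)..L, W x with hWi
  set X2 : ℝ := ∫ x in (0)..L, (f x + W x - θ x) ^ 2 with hX2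
  set Q : ℝ := ∫ x in (0)..L, (f' x / f x - θ' x / θ x) ^ 2 with hQ
  have hE00 : 0 ≤ E0 := integral_nonneg hL.le fun x hx => ent_nonneg (hfp x hx) (hθp x hx)
  have hWi0 : 0 ≤ Wi := integral_nonneg hL.le fun x hx => hW0 x hx
  have hX20 : 0 ≤ X2 := integral_nonneg hL.le fun x _ => sq_nonneg _
  have hQ0 : 0 ≤ Q := integral_nonneg hL.le fun x _ => sq_nonneg _
  have hV0 : 0 ≤ V := by rw [hVe]; exact add_nonneg hE00 hWi0
  refine ⟨hV0, ?_⟩
  have hD0 : 0 ≤ X2 + Q + Wi := by positivity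
  have hV1 : V / (1 + V) ≤ 1 := by
    rw [div_le_one (by linarith)]
    linarith
  have hV2 : V / (1 + V) ≤ V := div_le_self hV0 (by linarith)
  have hK0 : 0 ≤ 2 * M * (1 / m₀ ^ 2 + 2 / m₀) := by positivity
  have hexp : (1 / η + 1 + 2 * M * (1 / m₀ ^ 2 + 2 / m₀)) * (X2 + Q + Wi) =
      1 / η * (X2 + Q + Wi) + (X2 + Q + Wi) +
        2 * M * (1 / m₀ ^ 2 + 2 / m₀) * (X2 + Q + Wi) := by ring
  rw [hexp]
  have hp1 : 0 ≤ 1 / η * (X2 + Q + Wi) := by positivity
  have hp2 : 0 ≤ 2 * M * (1 / m₀ ^ 2 + 2 / m₀) * (X2 + Q + Wi) := mul_nonneg hK0 hD0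
  rcases le_or_gt η (X2 + Q + Wi) with hc | hc
  · have h1 : 1 ≤ 1 / η * (X2 + Q + Wi) := by
      rw [one_div_mul_eq_div, le_div_iff₀ hη0]
      linarith
    linarith
  · -- a good point
    have hx0 : ∃ x0 ∈ Icc 0 L, (f x0 + W x0 - θ x0) ^ 2 + W x0 ≤ 2 * η / L := by
      by_contra hcon
      push Not at hcon
      have h1 : ∫ _x in (0)..L, (2 * η / L) ≤ ∫ x in (0)..L, ((f x + W x - θ x) ^ 2 + W x) := by
        refine integral_mono_on hL.le intervalIntegrable_const (iX.add iW) ?_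
        intro x hx
        exact (hcon x hx).le
      rw [intervalIntegral.integral_const, integral_add iX iW, smul_eq_mul, sub_zero] at h1
      have h2 : L * (2 * η / L) = 2 * η := by field_simp
      rw [h2] at h1
      linarith
    obtain ⟨x0, hx0, hX0⟩ := hx0
    have hθ0 := hθb x0 hx0
    have hW00 := hW0 x0 hx0
    have hθp0 := hθp x0 hx0
    have hfp0 := hfp x0 hx0
    have g1 : 2 * η / L ≤ (m₀ / 20) ^ 2 := by
      rw [div_le_iff₀ hL]; linarith
    have g2 : 2 * η / L ≤ m₀ / 20 := by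
      rw [div_le_iff₀ hL]; linarith
    have g3 : |f x0 + W x0 - θ x0| ≤ m₀ / 20 := by
      apply abs_le_of_sq_le_sq _ (by positivity)
      linarith
    have g4 : W x0 ≤ m₀ / 20 := by
      have := sq_nonneg (f x0 + W x0 - θ x0)
      linarith
    rw [abs_le] at g3
    -- the ratio at x0
    have r1 : 9 / 10 ≤ f x0 / θ x0 := by
      rw [le_div_iff₀ hθp0]; linarith [g3.1, hθ0.1]
    have r2 : f x0 / θ x0 ≤ 11 / 10 := by
      rw [div_le_iff₀ hθp0]; linarith [g3.2, hθ0.1]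
    -- oscillation of the logarithm
    have hlogd : DerivOn L (fun x => Real.log (f x / θ x)) (fun x => f' x / f x - θ' x / θ x) := by
      intro x hx
      have h1 := ((hf x hx).log (hfp x hx).ne').sub ((hθ x hx).log (hθp x hx).ne')
      refine h1.congr ?_ ?_
      · intro y hy
        simp only [Pi.sub_apply]
        exact Real.log_div (hfp y hy).ne' (hθp y hy).ne'
      · simp only [Pi.sub_apply]
        exact Real.log_div (hfp x hx).ne' (hθp x hx).ne'
    have hosc : ∀ x ∈ Icc 0 L,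
        |Real.log (f x / θ x) - Real.log (f x0 / θ x0)| ≤ 1 / 10 := by
      intro x hx
      have h1 := WH.H30.sq_le_of_osc hL hlogd hqc hx0 hx
      apply abs_le_of_sq_le_sq _ (by norm_num)
      refine h1.trans ?_
      have h2 : L * Q ≤ L * η := mul_le_mul_of_nonneg_left (by linarith) hL.le
      have h3 : L * η ≤ L * (1 / (100 * L)) := mul_le_mul_of_nonneg_left hη3 hL.le
      have h4 : L * (1 / (100 * L)) = (1 / 10) ^ 2 := by field_simp; norm_num
      linarith
    have hexp1 : Real.exp (1 / 10) ≤ 10 / 9 := by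
      have h1 : 1 - (1 / 10 : ℝ) ≤ Real.exp (-(1 / 10)) := Real.one_sub_le_exp_neg _
      rw [Real.exp_neg] at h1
      have h2 := Real.exp_pos (1 / 10 : ℝ)
      have h3 : Real.exp (1 / 10) * (9 / 10) ≤ Real.exp (1 / 10) * (Real.exp (1 / 10))⁻¹ :=
        mul_le_mul_of_nonneg_left (by linarith) h2.le
      rw [mul_inv_cancel₀ h2.ne'] at h3
      linarith
    have hexp2 : 9 / 10 ≤ Real.exp (-(1 / 10)) := by
      have h1 : 1 - (1 / 10 : ℝ) ≤ Real.exp (-(1 / 10)) := Real.one_sub_le_exp_neg _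
      linarith
    have hr : ∀ x ∈ Icc 0 L, 1 / 2 ≤ f x / θ x ∧ f x / θ x ≤ 3 / 2 := by
      intro x hx
      have h1 := hosc x hx
      rw [abs_le] at h1
      have hpx : 0 < f x / θ x := div_pos (hfp x hx) (hθp x hx)
      have hpx0 : 0 < f x0 / θ x0 := div_pos hfp0 hθp0
      have e1 : f x / θ x = f x0 / θ x0 *
          Real.exp (Real.log (f x / θ x) - Real.log (f x0 / θ x0)) := by
        rw [Real.exp_sub, Real.exp_log hpx, Real.exp_log hpx0]
        field_simp
      constructor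
      · rw [e1]
        have h2 : Real.exp (-(1 / 10)) ≤
            Real.exp (Real.log (f x / θ x) - Real.log (f x0 / θ x0)) :=
          Real.exp_le_exp.2 (by linarith [h1.1])
        nlinarith
      · rw [e1]
        have h2 : Real.exp (Real.log (f x / θ x) - Real.log (f x0 / θ x0)) ≤
            Real.exp (1 / 10) := Real.exp_le_exp.2 (by linarith [h1.2])
        have h3 : Real.exp (Real.log (f x / θ x) - Real.log (f x0 / θ x0)) ≤ 10 / 9 :=
          h2.trans hexp1
        have h4 : 0 < Real.exp (Real.log (f x / θ x) - Real.log (f x0 / θ x0)) :=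
          Real.exp_pos _
        nlinarith
    -- bound for the entropy
    have hE1 : E0 ≤ ∫ x in (0)..L,
        2 * M * (1 / m₀ ^ 2 * (f x + W x - θ x) ^ 2 + 2 / m₀ * W x) := by
      refine integral_mono_on hL.le iE (((iX.const_mul _).add (iW.const_mul _)).const_mul _) ?_
      intro x hx
      exact ent_le hm (hθb x hx).1 (hθb x hx).2 (hW0 x hx) rfl (hr x hx).1 (hr x hx).2
    rw [intervalIntegral.integral_const_mul, integral_add (iX.const_mul _) (iW.const_mul _),
      intervalIntegral.integral_const_mul, intervalIntegral.integral_const_mul, ← hX2, ← hWi] at hE1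
    have hE2 : 2 * M * (1 / m₀ ^ 2 * X2 + 2 / m₀ * Wi) ≤
        2 * M * (1 / m₀ ^ 2 + 2 / m₀) * (X2 + Q + Wi) := by
      have h1 : 1 / m₀ ^ 2 * X2 ≤ 1 / m₀ ^ 2 * (X2 + Q + Wi) :=
        mul_le_mul_of_nonneg_left (by linarith) (by positivity)
      have h2 : 2 / m₀ * Wi ≤ 2 / m₀ * (X2 + Q + Wi) :=
        mul_le_mul_of_nonneg_left (by linarith) (by positivity)
      have h3 : 2 * M * (1 / m₀ ^ 2 * X2 + 2 / m₀ * Wi) ≤
          2 * M * (1 / m₀ ^ 2 * (X2 + Q + Wi) + 2 / m₀ * (X2 + Q + Wi)) :=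
        mul_le_mul_of_nonneg_left (by linarith) (by positivity)
      linarith
    linarith

end Pool.Agent.Lib.MP_4fbe7c_an.RS.H97
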